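import Pool.Agent.H4.CM.Chk

/-!
# Crew CM, part V72: all sign pairs for the 72 laws of order 16
-/

set_option autoImplicit false

namespace H4.CM

open Pool.Agent.Y382.PAR H22.CM

/-- the check of one entry of the table -/
def okT (t : ℕ × ℕ × ℕ × ℕ × List ℕ) : Bool := ok4 16 (law16 t.1 t.2.1 t.2.2.1 t.2.2.2.1) t.2.2.2.2

/-- the table is correct -/
theorem tab_ok : tab72.all okT = true := by decide +kernel

/-- the laws are in the table -/
def inT (a u v w : ℕ) : Bool :=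
  tab72.any fun t => Nat.beq t.1 a && (Nat.beq t.2.1 u && (Nat.beq t.2.2.1 v && Nat.beq t.2.2.2.1 w))

theorem cover0 : ball (fun u => ball (fun v => ball (fun w => inT 0 u v w) 4) 4) 4 = true := by
  decide +kernel

theorem cover1 : (inT 1 0 0 0 && inT 1 0 0 3 && inT 1 0 3 0 && inT 1 0 3 3 &&
    inT 1 3 0 0 && inT 1 3 0 3 && inT 1 3 3 0 && inT 1 3 3 3) = true := by
  decide +kernel

theorem inT_of_LT {a u v w : ℕ} (h : LT a u v w) : inT a u v w = true := by
  rcases h with ⟨rfl, hu, hv, hw⟩ | ⟨rfl, hu, hv, hw⟩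
  · exact (ball_iff _ _).1 ((ball_iff _ _).1 ((ball_iff _ _).1 cover0 u hu) v hv) w hw
  · have hc := cover1
    simp only [Bool.and_eq_true] at hc
    obtain ⟨⟨⟨⟨⟨⟨⟨h1, h2⟩, h3⟩, h4⟩, h5⟩, h6⟩, h7⟩, h8⟩ := hc
    rcases hu with rfl | rfl <;> rcases hv with rfl | rfl <;> rcases hw with rfl | rfl <;> assumption

theorem t_V72 : S_V72 := by
  intro a u v w h
  have h1 := inT_of_LT h
  unfold inT at h1
  rw [List.any_eq_true] at h1
  obtain ⟨t, ht, h2⟩ := h1
  rw [Bool.and_eq_true, Bool.and_eq_true, Bool.and_eq_true] at h2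
  obtain ⟨ha, hu, hv, hw⟩ := h2
  have h3 := (List.all_eq_true.1 tab_ok) t ht
  rw [← Nat.eq_of_beq_eq_true ha, ← Nat.eq_of_beq_eq_true hu, ← Nat.eq_of_beq_eq_true hv,
    ← Nat.eq_of_beq_eq_true hw]
  exact ok4_spec h3

end H4.CM
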