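import Pool.Agent.H22.CM.Tab

/-!
# Crew CM: a computable check of complete mappings of operations on `{0, ..., n-1}`

`pchk n g` says that `g` maps `{0, ..., n-1}` injectively into itself, `par n g` is the parity of the
number of its inversions.
-/

set_option autoImplicit false

namespace H4.CM

open Pool.Agent.Y382.PAR H22.CM

/-- `∀ i < n, h i` -/
def ball (h : ℕ → Bool) : ℕ → Bool
  | 0 => true
  | k + 1 => h k && ball h k

/-- the exclusive or of `h i`, `i < n` -/
def xfold (h : ℕ → Bool) : ℕ → Bool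
  | 0 => false
  | k + 1 => xor (xfold h k) (h k)

/-- the parity of the number of inversions -/
def par (n : ℕ) (g : ℕ → ℕ) : Bool :=
  xfold (fun i => xfold (fun j => Nat.ble (g i + 1) (g j)) i) n

/-- `g` is an injective map of `{0, ..., n-1}` into itself -/
def pchk (n : ℕ) (g : ℕ → ℕ) : Bool :=
  ball (fun i => Nat.ble (g i + 1) n && ball (fun j => ! Nat.beq (g i) (g j)) i) n

theorem ball_iff (h : ℕ → Bool) (n : ℕ) : ball h n = true ↔ ∀ i < n, h i = true := by
  induction n with
  | zero => simp [ball]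
  | succ k ih =>
    simp only [ball, Bool.and_eq_true, ih]
    constructor
    · rintro ⟨h1, h2⟩ i hi
      rcases Nat.lt_succ_iff_lt_or_eq.1 hi with h3 | h3
      · exact h2 i h3
      · exact h3 ▸ h1
    · intro h1
      exact ⟨h1 k (Nat.lt_succ_self k), fun i hi => h1 i (Nat.lt_succ_of_lt hi)⟩

/-- the sign of a boolean -/
def sg (b : Bool) : ℤˣ := if b then -1 else 1

theorem sg_xor (a b : Bool) : sg (xor a b) = sg a * sg b := by
  cases a <;> cases b <;> simp [sg]

theorem sg_xfold (h : ℕ → Bool) (n : ℕ) : sg (xfold h n) = ∏ i ∈ Finset.range n, sg (h i) := by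
  induction n with
  | zero => simp [xfold, sg]
  | succ k ih => rw [Finset.prod_range_succ, ← ih, ← sg_xor]; rfl

theorem pchk_lt {n : ℕ} {g : ℕ → ℕ} (h : pchk n g = true) (i : ℕ) (hi : i < n) : g i < n := by
  have h1 := (ball_iff _ _).1 h i hi
  rw [Bool.and_eq_true] at h1
  exact Nat.le_of_ble_eq_true h1.1

theorem pchk_inj {n : ℕ} {g : ℕ → ℕ} (h : pchk n g = true) (i j : ℕ) (hi : i < n) (hj : j < n)
    (e : g i = g j) : i = j := by
  have key : ∀ i j : ℕ, i < n → j < i → g i ≠ g j := by
    intro i j hi hj he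
    have h1 := (ball_iff _ _).1 h i hi
    rw [Bool.and_eq_true] at h1
    have h2 := (ball_iff _ _).1 h1.2 j hj
    rw [he] at h2
    simp at h2
  rcases lt_trichotomy i j with h1 | h1 | h1
  · exact absurd e.symm (key j i hj h1)
  · exact h1
  · exact absurd e (key i j hi h1)

/-- the permutation -/
noncomputable def toPerm {n : ℕ} {g : ℕ → ℕ} (h : pchk n g = true) : Equiv.Perm (Fin n) :=
  Equiv.ofBijective (fun i : Fin n => (⟨g i, pchk_lt h i i.2⟩ : Fin n))
    (Finite.injective_iff_bijective.1 fun i j e =>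
      Fin.ext (pchk_inj h i j i.2 j.2 (congrArg Fin.val e)))

theorem toPerm_val {n : ℕ} {g : ℕ → ℕ} (h : pchk n g = true) (i : Fin n) :
    ((toPerm h i : Fin n) : ℕ) = g i := rfl

theorem sgn_toPerm {n : ℕ} {g : ℕ → ℕ} (h : pchk n g = true) :
    sgn (toPerm h) = sg (par n g) := by
  rw [sgn_eq, Equiv.Perm.sign_eq_prod_prod_Iio, par, sg_xfold]
  have h1 : ∀ j : Fin n, (∏ i ∈ Finset.Iio j, (if toPerm h i < toPerm h j then 1 else -1 : ℤˣ)) =
      sg (xfold (fun k => Nat.ble (g j + 1) (g k)) j) := by
    intro j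
    rw [sg_xfold]
    refine Finset.prod_bij (fun i _ => (i : ℕ)) ?_ ?_ ?_ ?_
    · intro i hi
      exact Finset.mem_range.2 (Fin.lt_def.1 (Finset.mem_Iio.1 hi))
    · intro i _ k _ e
      exact Fin.ext e
    · intro k hk
      have hk' := Finset.mem_range.1 hk
      exact ⟨⟨k, hk'.trans j.2⟩, Finset.mem_Iio.2 hk', rfl⟩
    · intro i hi
      have hij : i < j := Finset.mem_Iio.1 hi
      have hne : g i ≠ g j := fun e => (ne_of_lt hij) (Fin.ext (pchk_inj h i j i.2 j.2 e))
      by_cases hlt : g i < g j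
      · have h2 : toPerm h i < toPerm h j := by
          rw [Fin.lt_def, toPerm_val, toPerm_val]; exact hlt
        have h3 : Nat.ble (g j + 1) (g i) = false := by
          rw [Bool.eq_false_iff]
          intro h4
          have := Nat.le_of_ble_eq_true h4
          omega
        rw [if_pos h2, h3]
        rfl
      · have h2 : ¬ toPerm h i < toPerm h j := by
          rw [Fin.lt_def, toPerm_val, toPerm_val]; exact hlt
        have h3 : Nat.ble (g j + 1) (g i) = true := by
          apply Nat.ble_eq_true_of_le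
          omega
        rw [if_neg h2, h3]
        rfl
  rw [Finset.prod_congr rfl fun j _ => h1 j]
  rw [Finset.prod_range]

/-- the check of one code, with the signs `s` of `f` and `t` of `F` -/
def okc (n : ℕ) (mul : ℕ → ℕ → ℕ) (c : ℕ) (s t : Bool) : Bool :=
  pchk n (dec n c) && (pchk n (fun i => mul i (dec n c i)) &&
    ((! xor (par n (dec n c)) s) && (! xor (par n (fun i => mul i (dec n c i))) t)))

theorem okc_spec {n : ℕ} {mul : ℕ → ℕ → ℕ} {c : ℕ} {s t : Bool} (h : okc n mul c s t = true) :
    ∃ f F : Equiv.Perm (Fin n), (∀ x, (F x : ℕ) = mul x (f x)) ∧ sgn f = sg s ∧ sgn F = sg t := by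
  unfold okc at h
  rw [Bool.and_eq_true, Bool.and_eq_true, Bool.and_eq_true] at h
  obtain ⟨h1, h2, h3, h4⟩ := h
  have h3' : par n (dec n c) = s := by
    revert h3; cases par n (dec n c) <;> cases s <;> simp
  have h4' : par n (fun i => mul i (dec n c i)) = t := by
    revert h4; cases par n (fun i => mul i (dec n c i)) <;> cases t <;> simp
  refine ⟨toPerm h1, toPerm h2, fun x => ?_, ?_, ?_⟩
  · rw [toPerm_val, toPerm_val]
  · rw [sgn_toPerm, h3']
  · rw [sgn_toPerm, h4']

/-- the check of the four codes -/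
def ok4 (n : ℕ) (mul : ℕ → ℕ → ℕ) : List ℕ → Bool
  | [c1, c2, c3, c4] => okc n mul c1 false false && (okc n mul c2 false true &&
      (okc n mul c3 true false && okc n mul c4 true true))
  | _ => false

theorem ok4_spec {n : ℕ} {mul : ℕ → ℕ → ℕ} {l : List ℕ} (h : ok4 n mul l = true) :
    OpAll n mul := by
  match l, h with
  | [c1, c2, c3, c4], h =>
    simp only [ok4, Bool.and_eq_true] at h
    obtain ⟨h1, h2, h3, h4⟩ := h
    intro ε δ
    rcases Int.units_eq_one_or ε with rfl | rfl <;> rcases Int.units_eq_one_or δ with rfl | rfl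
    · exact okc_spec h1
    · exact okc_spec h2
    · exact okc_spec h3
    · exact okc_spec h4

end H4.CM
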