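import Pool.Agent.H22.CM.Stm
import Pool.Graph.R_seed8.Y410.PAR.EXT

/-!
# Crew CM, part TWO: noncyclic 2-groups of order 16 or at least 64
-/

set_option autoImplicit false

namespace H4.CM

open Pool.Agent.Y382.PAR H22.CM

theorem with_big_elt (hFAM : S_FAM) (hCLS : S_CLS) (P : Type) [Group P] [Finite P] (k : ℕ)
    (hk : 2 ≤ k) (hc : Nat.card P = 4 * 2 ^ k) (hn : ¬ IsCyclic P)
    (hx : ∃ x : P, orderOf x * 2 = Nat.card P) : AllPar P := by
  obtain ⟨r, e, h1, h2⟩ := hCLS P k (by omega) hc hn hx
  exact hFAM P k r e hk h1 h2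

theorem card_quot {P : Type} [Group P] [Finite P] (N : Subgroup P) (a : ℕ)
    (h : Nat.card N * a = Nat.card P) : Nat.card (P ⧸ N) = a := by
  have h1 := Subgroup.card_eq_card_quotient_mul_card_subgroup N
  have h2 : 0 < Nat.card N := Nat.card_pos
  rw [← h, mul_comm] at h1
  exact (Nat.eq_of_mul_eq_mul_right h2 h1).symm

theorem sq_quot {P : Type} [Group P] (N : Subgroup P) [N.Normal] (h : ∀ x : P, x * x ∈ N)
    (x : P ⧸ N) : x * x = 1 := by
  obtain ⟨y, rfl⟩ := QuotientGroup.mk_surjective x
  rw [← QuotientGroup.mk_mul, QuotientGroup.eq_one_iff]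
  exact h y

theorem not_cyclic_four {Q : Type} [Group Q] (hc : Nat.card Q = 4) (h : ∀ x : Q, x * x = 1) :
    ¬ IsCyclic Q := by
  intro hcy
  obtain ⟨g, hg⟩ := hcy.exists_generator
  have h1 : orderOf g = Nat.card Q := orderOf_eq_card_of_forall_mem_zpowers hg
  have h2 : orderOf g ∣ 2 := orderOf_dvd_of_pow_eq_one (by rw [pow_two]; exact h g)
  rw [h1, hc] at h2
  exact absurd (Nat.le_of_dvd (by norm_num) h2) (by norm_num)

theorem not_cyclic_quot {P : Type} [Group P] (N N₂ : Subgroup P) [N.Normal] [N₂.Normal]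
    (hle : N₂ ≤ N) (h : ¬ IsCyclic (P ⧸ N)) : ¬ IsCyclic (P ⧸ N₂) := by
  intro hcy
  apply h
  refine isCyclic_of_surjective (QuotientGroup.map N₂ N (MonoidHom.id P) (by
    intro x hx; exact hle hx)) ?_
  intro y
  obtain ⟨z, rfl⟩ := QuotientGroup.mk_surjective y
  exact ⟨(z : P ⧸ N₂), rfl⟩

theorem t_TWO (hFAM : S_FAM) (hCLS : S_CLS) (hSTR : S_STR) (hSTI : S_STI) (hVCM : S_VCM)
    (hCOV : S_COV) (hTRO : S_TRO) (hV72 : S_V72) (hHPT : S_HPT) : S_TWO := by
  have main : ∀ c : ℕ, ∀ (P : Type) [Group P] [Finite P], Nat.card P = c → IsPGroup 2 P →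
      ¬ IsCyclic P → (Nat.card P = 16 ∨ 64 ≤ Nat.card P) → AllPar P := by
    intro c
    induction c using Nat.strong_induction_on with
    | _ c ih =>
      intro P _ _ hc hp hn hcard
      haveI : Fact (Nat.Prime 2) := ⟨Nat.prime_two⟩
      obtain ⟨m, hm⟩ := IsPGroup.iff_card.1 hp
      have hm4 : 4 ≤ m := by
        by_contra h
        have h1 : 2 ^ m ≤ 2 ^ 3 := Nat.pow_le_pow_right (by norm_num) (by omega)
        rw [← hm] at h1
        omega
      obtain ⟨j, rfl⟩ : ∃ j, m = j + 4 := ⟨m - 4, by omega⟩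
      by_cases hx : ∃ x : P, orderOf x * 2 = Nat.card P
      · exact with_big_elt hFAM hCLS P (j + 2) (by omega) (by rw [hm]; ring) hn hx
      · have hx' : ∀ x : P, orderOf x * 2 ≠ Nat.card P := fun x e => hx ⟨x, e⟩
        have h16 : 16 ≤ Nat.card P := by omega
        obtain ⟨N, hNn, hNc, hN4, hNs⟩ := hSTR P hp h16 hn hx'
        haveI := hNn
        have hq4 : Nat.card (P ⧸ N) = 4 := card_quot N 4 hN4
        have hqs : ∀ x : P ⧸ N, x * x = 1 := sq_quot N hNs
        have hcm : HasCM (P ⧸ N) := hVCM (P ⧸ N) hq4 hqs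
        rcases hcard with h | h
        · have hN : Nat.card N = 4 := by omega
          obtain ⟨a, u, v, w, hLT, hCoo⟩ := hCOV P N h hNn hNc hN hNs
          exact (hTRO P 16 _ hCoo).1 (hV72 a u v w hLT)
        · have hNp : IsPGroup 2 N := hp.to_subgroup N
          have hNcard : Nat.card N = 4 * 2 ^ j := by
            have h1 : Nat.card N * 4 = (4 * 2 ^ j) * 4 := by
              rw [hN4, hm]; ring
            exact Nat.eq_of_mul_eq_mul_right (by norm_num) h1
          by_cases hgood : Nat.card N = 16 ∨ 64 ≤ Nat.card N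
          · have hN := ih (Nat.card N) (by omega) N rfl hNp hNc hgood
            exact Pool.Agent.Y410.PAR.t_EXT P N hcm hN
          · have hj : j = 3 := by
              have h1 : ¬ 4 * 2 ^ j = 16 := fun e => hgood (Or.inl (by omega))
              have h2 : ¬ 64 ≤ 4 * 2 ^ j := fun e => hgood (Or.inr (by omega))
              have h3 : 16 ≤ 4 * 2 ^ j := by omega
              have h4 : j < 4 := by
                by_contra h5
                have : 2 ^ 4 ≤ 2 ^ j := Nat.pow_le_pow_right (by norm_num) (by omega)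
                omega
              interval_cases j <;> omega
            subst hj
            have hN32 : Nat.card N = 32 := by rw [hNcard]; norm_num
            by_cases hy : ∃ x : N, orderOf x * 2 = Nat.card N
            · have hN := with_big_elt hFAM hCLS N 3 (by omega) hNcard hNc hy
              exact Pool.Agent.Y410.PAR.t_EXT P N hcm hN
            · have hy' : ∀ x : N, orderOf x * 2 ≠ Nat.card N := fun x e => hy ⟨x, e⟩
              have hNb : N ≠ ⊥ := by
                intro e
                have : Nat.card N = 1 := by rw [e]; exact Subgroup.card_bot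
                omega
              obtain ⟨N₂, hn2, hle, hc2, hcyc2⟩ := hSTI P N hp hNn hNb hy'
              haveI := hn2
              have h2c : Nat.card N₂ = 16 := by omega
              have hN2 := ih (Nat.card N₂) (by omega) N₂ rfl (hp.to_subgroup N₂) hcyc2
                (Or.inl h2c)
              have hcq : ¬ IsCyclic (P ⧸ N₂) :=
                not_cyclic_quot N N₂ hle (not_cyclic_four hq4 hqs)
              have hcm2 : HasCM (P ⧸ N₂) := hHPT (P ⧸ N₂) (hp.to_quotient N₂) hcq
              exact Pool.Agent.Y410.PAR.t_EXT P N₂ hcm2 hN2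
  intro P _ _ hp hn hcard
  exact main _ P rfl hp hn hcard

end H4.CM
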